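import Pool.Agent.Helper70.EV.Upper
import Pool.Agent.Helper70.EV.Lower

/-!
# Davidson's conjecture: the critical value of standard p-functions is `1 / e`
-/

set_option autoImplicit false

open MeasureTheory Set Filter Topology

namespace Pool.Agent.Results.MP_b4adac_pr.EventForm

open Pool.Agent.Helper70.EV

/-- **Davidson's conjecture** for standard p-functions, defined by regenerative events: `c = 1 / e`.
More precisely, for `0 < M ≤ 1` the number `I(M)` is positive if and only if `M > 1 / e`. -/
theorem result : critical = Real.exp (-1) ∧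
    ∀ M : ℝ, 0 < M → M ≤ 1 → (0 < lowest M ↔ Real.exp (-1) < M) := by
  have hval : ∀ p, IsStandard p → ∀ t, 0 ≤ t → 0 ≤ p t := by
    rintro p ⟨⟨-, Ω, mΩ, P, E, hP, H⟩, -⟩ t ht
    rw [← H.prob ht]
    exact measureReal_nonneg
  have hmin0 : ∀ p, IsStandard p → 0 ≤ minimum p := by
    intro p hp
    refine Real.sInf_nonneg ?_
    rintro _ ⟨t, ht, rfl⟩
    exact hval p hp t ht.1
  have hbdd : ∀ p, IsStandard p → BddBelow (p '' Icc 0 1) := by
    intro p hp
    refine ⟨0, ?_⟩
    rintro _ ⟨t, ht, rfl⟩
    exact hval p hp t ht.1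
  have main : ∀ M : ℝ, 0 < M → M ≤ 1 → (0 < lowest M ↔ Real.exp (-1) < M) := by
    intro M hM0 hM1
    constructor
    · intro h
      by_contra hcon
      push Not at hcon
      obtain ⟨p, hp, hp1, hp2⟩ := Ex.exists_example hM0 hcon h
      have h1 : lowest M ≤ minimum p := by
        refine csInf_le ⟨0, ?_⟩ ⟨p, hp, hp1, rfl⟩
        rintro _ ⟨p', hp', -, rfl⟩
        exact hmin0 p' hp'
      have h2 : minimum p ≤ p (1 / 2) := csInf_le (hbdd p hp) ⟨1 / 2, by norm_num, rfl⟩
      linarith
    · intro h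
      obtain ⟨M0, hM01, hM02⟩ := exists_between h
      obtain ⟨δ, hδ, hmain⟩ := upper hM01
      -- the class is not empty
      have hne : ({x | ∃ p, IsStandard p ∧ p 1 = M ∧ x = minimum p} : Set ℝ).Nonempty := by
        rcases hM1.lt_or_eq with hlt | rfl
        · have hq : 0 < -Real.log M := by
            have := Real.log_neg hM0 hlt
            linarith
          refine ⟨_, Ex.pf (-Real.log M) 2, Ex.isStandard hq (by norm_num), ?_, rfl⟩
          rw [Ex.pf, measureReal_def, Ex.prob_small hq (by norm_num) (by norm_num) (by norm_num),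
            ENNReal.toReal_ofReal (Real.exp_pos _).le, mul_one, neg_neg, Real.exp_log hM0]
        · refine ⟨_, fun _ => 1, ⟨⟨rfl, Unit, inferInstance, Measure.dirac (), fun _ => univ,
            inferInstance, ⟨fun _ _ => MeasurableSet.univ, ?_⟩⟩, tendsto_const_nhds⟩, rfl, rfl⟩
          intro n t _ _
          simp
      refine lt_of_lt_of_le hδ (le_csInf hne ?_)
      rintro _ ⟨p, hp, hp1, rfl⟩
      refine le_csInf ⟨p 0, 0, by simp, rfl⟩ ?_
      rintro _ ⟨t, ht, rfl⟩
      by_contra hcon
      push Not at hcon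
      have := hmain p hp ⟨t, ht, hcon⟩
      linarith
  refine ⟨?_, main⟩
  have he1 : Real.exp (-1) < 1 := by
    rw [← Real.exp_zero]
    exact Real.exp_lt_exp.2 (by norm_num)
  have e : {M : ℝ | 0 < M ∧ M ≤ 1 ∧ 0 < lowest M} = Ioc (Real.exp (-1)) 1 := by
    ext M
    constructor
    · rintro ⟨h0, h1, h2⟩
      exact ⟨(main M h0 h1).1 h2, h1⟩
    · rintro ⟨h0, h1⟩
      have : 0 < M := (Real.exp_pos _).trans h0
      exact ⟨this, h1, (main M this h1).2 h0⟩
  rw [critical, e, csInf_Ioc he1]

end Pool.Agent.Results.MP_b4adac_pr.EventForm
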